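import Mathlib
import Pool.Agent.H47.HRC

set_option autoImplicit false

namespace Pool.Agent.Results.MP_37b94e_an.HyperplaneRank

open Pool.Agent.H47.HR

/-- Complex n-space. -/
abbrev Cn (n : ℕ) : Type := EuclideanSpace ℂ (Fin n)

/-- `p` has a representation of length `N`: it is a sum of `N` terms, each plus or minus the squared
modulus of a function holomorphic on the whole space. -/
def HasRep {m : ℕ} (p : Cn m → ℝ) (N : ℕ) : Prop :=
  ∃ (ε : Fin N → ℤˣ) (f : Fin N → Cn m → ℂ),
    (∀ j, Differentiable ℂ (f j)) ∧ ∀ z, p z = ∑ j, ((ε j : ℤ) : ℝ) * ‖f j z‖ ^ 2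

/-- The rank: the least length of a representation, infinite if there is none. -/
noncomputable def rank {m : ℕ} (p : Cn m → ℝ) : ℕ∞ := ⨅ (N : ℕ) (_ : HasRep p N), (N : ℕ∞)

/-- A complex (affine) hyperplane of complex n-space. -/
structure IsHyperplane {n : ℕ} (H : AffineSubspace ℂ (Cn n)) : Prop where
  nonempty : (H : Set (Cn n)).Nonempty
  codim : Module.finrank ℂ H.direction + 1 = n

/-- `φ` is an affine complex-linear parametrisation of `H`. -/
def Parametrises {n : ℕ} (φ : Cn (n - 1) →ᵃ[ℂ] Cn n) (H : AffineSubspace ℂ (Cn n)) : Prop :=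
  Function.Injective φ ∧ Set.range φ = (H : Set (Cn n))

/-- The triangular numbers. -/
def tri (k : ℕ) : ℕ := k * (k + 1) / 2

lemma T_eq (k : ℕ) : T k = tri k := by
  have h : ∀ k : ℕ, 2 * T k = k * (k + 1) := by
    intro k
    induction k with
    | zero => rfl
    | succ k ih =>
      have : T (k + 1) = (k + 1) + T k := rfl
      rw [this, mul_add, ih]
      ring
  unfold tri
  rw [← h k, Nat.mul_div_cancel_left _ (by norm_num)]

lemma HasRep.mono {m : ℕ} {p : Cn m → ℝ} {N M : ℕ} (h : HasRep p N) (hNM : N ≤ M) : HasRep p M := by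
  obtain ⟨d, rfl⟩ := Nat.exists_eq_add_of_le hNM
  obtain ⟨ε, f, hf, hp⟩ := h
  refine ⟨Fin.append ε (fun _ => 1), Fin.append f (fun _ _ => 0), ?_, ?_⟩
  · intro j
    refine Fin.addCases (fun i => ?_) (fun i => ?_) j
    · rw [Fin.append_left]; exact hf i
    · rw [Fin.append_right]; exact differentiable_const _
  · intro z
    rw [hp z, Fin.sum_univ_add]
    simp only [Fin.append_left, Fin.append_right]
    simp

lemma rank_le_iff {m : ℕ} {p : Cn m → ℝ} {N : ℕ} : rank p ≤ N ↔ HasRep p N := by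
  constructor
  · intro h
    by_contra hn
    have h1 : ((N + 1 : ℕ) : ℕ∞) ≤ rank p := by
      refine le_iInf₂ fun M hM => ?_
      have : N < M := by
        by_contra hlt
        exact hn (hM.mono (not_lt.mp hlt))
      exact_mod_cast this
    have h2 := le_trans h1 h
    have h3 : N + 1 ≤ N := by exact_mod_cast h2
    omega
  · intro h
    exact iInf₂_le N h

lemma affine_differentiable {m n : ℕ} (φ : Cn m →ᵃ[ℂ] Cn n) : Differentiable ℂ (fun x => φ x) := by
  have h : (fun x => φ x) = fun x => (LinearMap.toContinuousLinearMap φ.linear) x + φ 0 := by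
    funext x
    have := φ.map_vadd 0 x
    simpa using this
  rw [h]
  exact (LinearMap.toContinuousLinearMap φ.linear).differentiable.add_const _

/-- a representation of one parametrisation gives one of any other -/
lemma HasRep.param {n : ℕ} (p : Cn n → ℝ) {H : AffineSubspace ℂ (Cn n)} {φ ψ : Cn (n - 1) →ᵃ[ℂ] Cn n}
    (hφ : Parametrises φ H) (hψ : Parametrises ψ H) {N : ℕ} (h : HasRep (p ∘ ψ) N) :
    HasRep (p ∘ φ) N := by
  obtain ⟨ε, f, hf, hp⟩ := h
  have hinj : Function.Injective ψ.linear := ψ.linear_injective_iff.2 hψ.1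
  obtain ⟨g, hg⟩ := LinearMap.exists_leftInverse_of_injective ψ.linear (LinearMap.ker_eq_bot.2 hinj)
  have key : ∀ x, ψ (g (φ x - ψ 0)) = φ x := by
    intro x
    have hx : φ x ∈ Set.range ψ := by rw [hψ.2, ← hφ.2]; exact ⟨x, rfl⟩
    obtain ⟨y, hy⟩ := hx
    have h1 : ψ y - ψ 0 = ψ.linear y := by
      have := ψ.map_vadd 0 y
      simp only [vadd_eq_add, add_zero] at this
      rw [this]; simp
    rw [← hy, h1]
    congr 1
    exact LinearMap.congr_fun hg y
  refine ⟨ε, fun j x => f j (g (φ x - ψ 0)), ?_, ?_⟩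
  · intro j
    have h2 : Differentiable ℂ (fun x => g (φ x - ψ 0)) := by
      have h3 : Differentiable ℂ (fun x => φ x - ψ 0) := (affine_differentiable φ).sub_const _
      exact (LinearMap.toContinuousLinearMap g).differentiable.comp h3
    exact (hf j).comp h2
  · intro z
    have h1 := hp (g (φ z - ψ 0))
    simp only [Function.comp] at h1 ⊢
    rw [key z] at h1
    exact h1

/-- The rank of a restriction does not depend on the parametrisation. -/
lemma rank_param {n : ℕ} (p : Cn n → ℝ) {H : AffineSubspace ℂ (Cn n)} {φ ψ : Cn (n - 1) →ᵃ[ℂ] Cn n}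
    (hφ : Parametrises φ H) (hψ : Parametrises ψ H) : rank (p ∘ φ) = rank (p ∘ ψ) := by
  have h : ∀ N, HasRep (p ∘ φ) N ↔ HasRep (p ∘ ψ) N := fun N =>
    ⟨fun h => HasRep.param p hψ hφ h, fun h => HasRep.param p hφ hψ h⟩
  unfold rank
  simp only [h]

lemma exists_param {n : ℕ} {H : AffineSubspace ℂ (Cn n)} (hH : IsHyperplane H) :
    ∃ φ, Parametrises φ H := by
  obtain ⟨a, ha⟩ := hH.nonempty
  have hfr : Module.finrank ℂ (Cn (n - 1)) = Module.finrank ℂ H.direction := by
    rw [finrank_euclideanSpace, Fintype.card_fin]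
    have := hH.codim
    omega
  let e : Cn (n - 1) ≃ₗ[ℂ] H.direction := LinearEquiv.ofFinrankEq _ _ hfr
  let L : Cn (n - 1) →ₗ[ℂ] Cn n := H.direction.subtype ∘ₗ e.toLinearMap
  let φ : Cn (n - 1) →ᵃ[ℂ] Cn n := AffineMap.mk' (fun x => L x + a) L 0 (by
    intro x
    simp [vadd_eq_add])
  have hφ : ∀ x, φ x = (e x : Cn n) + a := fun x => rfl
  refine ⟨φ, ?_, ?_⟩
  · intro x y hxy
    rw [hφ, hφ] at hxy
    have h1 : (e x : Cn n) = (e y : Cn n) := add_right_cancel hxy
    exact e.injective (Subtype.ext h1)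
  · ext z
    constructor
    · rintro ⟨x, rfl⟩
      rw [hφ]
      exact AffineSubspace.vadd_mem_of_mem_direction (e x).2 ha
    · intro hz
      have h1 : z - a ∈ H.direction := AffineSubspace.vsub_mem_direction hz ha
      refine ⟨e.symm ⟨z - a, h1⟩, ?_⟩
      rw [hφ, LinearEquiv.apply_symm_apply]
      simp

/-- The restriction of `p` to every complex hyperplane has rank at most `k`. -/
def RestrictionsLE {n : ℕ} (p : Cn n → ℝ) (k : ℕ) : Prop :=
  ∀ H : AffineSubspace ℂ (Cn n), IsHyperplane H →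
    ∃ φ : Cn (n - 1) →ᵃ[ℂ] Cn n, Parametrises φ H ∧ rank (p ∘ φ) ≤ k

/-- **Full answer to Q1 with an explicit constant independent of the dimension.** -/
theorem result (n : ℕ) (hn : 2 ≤ n) (k : ℕ) (p : Cn n → ℝ) (hp : AnalyticOnNhd ℝ p Set.univ)
    (hyp : RestrictionsLE p k) : rank p ≤ (2 * tri (tri k) : ℕ) := by
  rw [rank_le_iff]
  let E : Cn n ≃L[ℂ] (Fin n → ℂ) := EuclideanSpace.equiv (Fin n) ℂ
  let E' : Cn (n - 1) ≃L[ℂ] (Fin (n - 1) → ℂ) := EuclideanSpace.equiv (Fin (n - 1)) ℂ
  have hPan : AnalyticOnNhd ℝ (fun z : Fin n → ℂ => p (E.symm z)) Set.univ := by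
    intro z _
    have h1 : AnalyticAt ℂ (fun z : Fin n → ℂ => E.symm z) z :=
      (E.symm : (Fin n → ℂ) →L[ℂ] Cn n).analyticAt z
    exact AnalyticAt.fun_comp (g := p) (f := fun z => E.symm z) (hp _ (Set.mem_univ _)) h1.restrictScalars
  have hypP : ∀ (a : Fin n → ℂ) (L : (Fin (n - 1) → ℂ) →ₗ[ℂ] (Fin n → ℂ)),
        Function.Injective L →
        ∃ (ε : Fin k → ℝ) (g : Fin k → (Fin (n - 1) → ℂ) → ℂ),
          (∀ j, ε j = 1 ∨ ε j = -1) ∧ (∀ j, Differentiable ℂ (g j)) ∧
          ∀ x, p (E.symm (a + L x)) = ∑ j, ε j * Complex.normSq (g j x) := by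
    intro a L hL
    let M : Cn (n - 1) →ₗ[ℂ] Cn n :=
      (E.symm.toLinearEquiv.toLinearMap ∘ₗ L) ∘ₗ E'.toLinearEquiv.toLinearMap
    have hM : ∀ x, M x = E.symm (L (E' x)) := fun x => rfl
    have hMinj : Function.Injective M := by
      intro x y hxy
      rw [hM, hM] at hxy
      exact E'.injective (hL (E.symm.injective hxy))
    let H : AffineSubspace ℂ (Cn n) := AffineSubspace.mk' (E.symm a) (LinearMap.range M)
    have hH : IsHyperplane H := by
      refine ⟨⟨E.symm a, AffineSubspace.self_mem_mk' _ _⟩, ?_⟩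
      rw [AffineSubspace.direction_mk', LinearMap.finrank_range_of_inj hMinj,
        finrank_euclideanSpace, Fintype.card_fin]
      omega
    obtain ⟨φ, hφ, hrk⟩ := hyp H hH
    let ψ : Cn (n - 1) →ᵃ[ℂ] Cn n := AffineMap.mk' (fun x => M x + E.symm a) M 0 (by
      intro x
      simp [vadd_eq_add])
    have hψ' : ∀ x, ψ x = M x + E.symm a := fun x => rfl
    have hψ : Parametrises ψ H := by
      refine ⟨?_, ?_⟩
      · intro x y hxy
        rw [hψ', hψ'] at hxy
        exact hMinj (add_right_cancel hxy)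
      · ext z
        constructor
        · rintro ⟨x, rfl⟩
          rw [hψ']
          exact AffineSubspace.vadd_mem_mk' _ ⟨x, rfl⟩
        · intro hz
          have h1 : z -ᵥ E.symm a ∈ LinearMap.range M := by
            have := AffineSubspace.mem_mk'.1 hz
            exact this
          obtain ⟨x, hx⟩ := h1
          refine ⟨x, ?_⟩
          rw [hψ', hx]
          simp
    have hrep : HasRep (p ∘ ψ) k := by
      rw [← rank_le_iff, rank_param p hψ hφ]
      exact hrk
    obtain ⟨ε, f, hf, hsum⟩ := hrep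
    refine ⟨fun j => ((ε j : ℤ) : ℝ), fun j x => f j (E'.symm x), ?_, ?_, ?_⟩
    · intro j
      rcases Int.units_eq_one_or (ε j) with h | h
      · left; simp [h]
      · right; simp [h]
    · intro j
      exact (hf j).comp (E'.symm : (Fin (n - 1) → ℂ) →L[ℂ] Cn (n - 1)).differentiable
    · intro x
      have h1 := hsum (E'.symm x)
      simp only [Function.comp, hψ', hM] at h1
      rw [ContinuousLinearEquiv.apply_symm_apply] at h1
      rw [map_add, add_comm, h1]
      refine Finset.sum_congr rfl fun j _ => ?_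
      rw [Complex.normSq_eq_norm_sq]
  obtain ⟨ε, f, hε, hf, hsum⟩ := Pool.Agent.H47.HRC.explicit n hn k (fun z => p (E.symm z)) hPan hypP
  have hc : T (T k) + T (T k) = 2 * tri (tri k) := by
    rw [T_eq, T_eq]
    ring
  rw [← hc]
  classical
  refine ⟨fun j => if ε j = 1 then 1 else -1, fun j z => f j (E z), ?_, ?_⟩
  · intro j
    exact (hf j).comp (E : Cn n →L[ℂ] (Fin n → ℂ)).differentiable
  · intro z
    have h1 := hsum (E z)
    simp only [ContinuousLinearEquiv.symm_apply_apply] at h1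
    rw [h1]
    refine Finset.sum_congr rfl fun j _ => ?_
    rw [Complex.normSq_eq_norm_sq]
    congr 1
    rcases hε j with h | h
    · simp [h]
    · have h2 : ¬ (ε j = 1) := by rw [h]; norm_num
      show ε j = (((if ε j = 1 then (1 : ℤˣ) else -1 : ℤˣ) : ℤ) : ℝ)
      rw [if_neg h2, h]
      simp

end Pool.Agent.Results.MP_37b94e_an.HyperplaneRank
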